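import Pool.Agent.Helper85.Online.Defs

set_option autoImplicit false

/-!
# Building circuits step by step
-/

namespace Pool.Agent.Helper85.Online

open Finset Pool.Agent.H88R3.MM Pool.Agent.H522R2 Pool.Agent.H522R2.Circuit

universe u v

variable {F : Type u} [Field F] {V : Type v}

/-- add one node at the end -/
def snoc (C : Circuit F V) (g : Gate F V C.nodes) : Circuit F V where
  nodes := C.nodes + 1
  gate k := Fin.lastCases (motive := fun k : Fin (C.nodes + 1) => Gate F V (k : ℕ)) g
    (fun k => C.gate k) k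

omit [Field F] in
theorem snoc_last (C : Circuit F V) (g : Gate F V C.nodes) :
    (snoc C g).gate (Fin.last C.nodes) = g := by
  show Fin.lastCases (motive := fun k : Fin (C.nodes + 1) => Gate F V (k : ℕ)) g
    (fun k => C.gate k) (Fin.last C.nodes) = g
  rw [Fin.lastCases_last]

omit [Field F] in
theorem snoc_old (C : Circuit F V) (g : Gate F V C.nodes) (k : Fin C.nodes) :
    (snoc C g).gate k.castSucc = C.gate k := by
  show Fin.lastCases (motive := fun k : Fin (C.nodes + 1) => Gate F V (k : ℕ)) g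
    (fun k => C.gate k) k.castSucc = C.gate k
  rw [Fin.lastCases_castSucc]

/-- `C'` continues `C`: the nodes of `C` are the first nodes of `C'`, the new input nodes are
labelled by variables satisfying `P`, and there are at most `s` new nonscalar multiplications. -/
structure Ext (P : V → Prop) (s : ℕ) (C C' : Circuit F V) : Prop where
  le : C.nodes ≤ C'.nodes
  gate : ∀ (k : ℕ) (hk : k < C.nodes), C'.gate ⟨k, hk.trans_le le⟩ = C.gate ⟨k, hk⟩
  lab : ∀ (k : Fin C'.nodes) (x : V), C.nodes ≤ k → C'.gate k = Gate.var x → P x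
  cnt : C'.nonscalarCount ≤ C.nonscalarCount + s

theorem Ext.refl (P : V → Prop) (C : Circuit F V) : Ext P 0 C C where
  le := le_refl _
  gate _ _ := rfl
  lab k _ hk _ := absurd k.2 (not_lt.mpr hk)
  cnt := le_refl _

theorem Ext.trans {P : V → Prop} {s s' : ℕ} {C C' C'' : Circuit F V} (h : Ext P s C C')
    (h' : Ext P s' C' C'') : Ext P (s + s') C C'' where
  le := h.le.trans h'.le
  gate k hk := by rw [h'.gate k (hk.trans_le h.le), h.gate k hk]
  lab k x hk hx := by
    by_cases hk' : C'.nodes ≤ k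
    · exact h'.lab k x hk' hx
    · rw [not_le] at hk'
      refine h.lab ⟨k, hk'⟩ x hk ?_
      rw [← h'.gate k hk']
      exact hx
  cnt := by
    have h1 := h.cnt
    have h2 := h'.cnt
    omega

theorem Ext.weaken {P Q : V → Prop} {s s' : ℕ} {C C' : Circuit F V} (h : Ext P s C C')
    (hPQ : ∀ x, P x → Q x) (hs : s ≤ s') : Ext Q s' C C' where
  le := h.le
  gate := h.gate
  lab k x hk hx := hPQ x (h.lab k x hk hx)
  cnt := h.cnt.trans (by omega)

theorem Ext.poly {P : V → Prop} {s : ℕ} {C C' : Circuit F V} (h : Ext P s C C') (k : ℕ)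
    (hk : k < C.nodes) : C'.poly ⟨k, hk.trans_le h.le⟩ = C.poly ⟨k, hk⟩ := by
  induction k using Nat.strong_induction_on with
  | _ k ih =>
    rw [Circuit.poly, Circuit.poly, h.gate k hk]
    cases hg : C.gate ⟨k, hk⟩ with
    | var x => rfl
    | const c => rfl
    | add i j =>
      simp only
      exact congrArg₂ (· + ·) (ih i i.2 (i.2.trans hk)) (ih j j.2 (j.2.trans hk))
    | mul i j =>
      simp only
      exact congrArg₂ (· * ·) (ih i i.2 (i.2.trans hk)) (ih j j.2 (j.2.trans hk))

/-- the polynomial is computed at some node -/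
def Avail (C : Circuit F V) (p : MvPolynomial V F) : Prop := ∃ k : Fin C.nodes, C.poly k = p

theorem Avail.ext {P : V → Prop} {s : ℕ} {C C' : Circuit F V} (h : Ext P s C C')
    {p : MvPolynomial V F} (hp : Avail C p) : Avail C' p := by
  obtain ⟨k, hk⟩ := hp
  exact ⟨⟨k, k.2.trans_le h.le⟩, by rw [h.poly k k.2]; exact hk⟩

open Classical in
theorem nonscalar_snoc (C : Circuit F V) (g : Gate F V C.nodes) :
    (snoc C g).nonscalarCount =
      C.nonscalarCount + (if (snoc C g).IsNonscalar (Fin.last C.nodes) then 1 else 0) := by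
  have hpoly : ∀ (k : ℕ) (hk : k < C.nodes),
      (snoc C g).poly ⟨k, hk.trans (Nat.lt_succ_self _)⟩ = C.poly ⟨k, hk⟩ := by
    intro k hk
    induction k using Nat.strong_induction_on with
    | _ k ih =>
      rw [Circuit.poly, Circuit.poly]
      have hg := snoc_old C g ⟨k, hk⟩
      have hg' : (snoc C g).gate ⟨k, hk.trans (Nat.lt_succ_self _)⟩ = C.gate ⟨k, hk⟩ := hg
      rw [hg']
      cases h : C.gate ⟨k, hk⟩ with
      | var x => rfl
      | const c => rfl
      | add i j =>
        simp only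
        exact congrArg₂ (· + ·) (ih i i.2 (i.2.trans hk)) (ih j j.2 (j.2.trans hk))
      | mul i j =>
        simp only
        exact congrArg₂ (· * ·) (ih i i.2 (i.2.trans hk)) (ih j j.2 (j.2.trans hk))
  have hns : ∀ k : Fin C.nodes, (snoc C g).IsNonscalar k.castSucc ↔ C.IsNonscalar k := by
    intro k
    unfold IsNonscalar
    rw [snoc_old]
    constructor
    · rintro ⟨i, j, h, h1, h2⟩
      refine ⟨i, j, h, fun c => ?_, fun c => ?_⟩
      · have := h1 c
        rwa [show (snoc C g).up k.castSucc i = ⟨i, (i.2.trans k.2).trans (Nat.lt_succ_self _)⟩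
          from rfl, hpoly i (i.2.trans k.2)] at this
      · have := h2 c
        rwa [show (snoc C g).up k.castSucc j = ⟨j, (j.2.trans k.2).trans (Nat.lt_succ_self _)⟩
          from rfl, hpoly j (j.2.trans k.2)] at this
    · rintro ⟨i, j, h, h1, h2⟩
      refine ⟨i, j, h, fun c => ?_, fun c => ?_⟩
      · have := h1 c
        rwa [show (snoc C g).up k.castSucc i = ⟨i, (i.2.trans k.2).trans (Nat.lt_succ_self _)⟩
          from rfl, hpoly i (i.2.trans k.2)]
      · have := h2 c
        rwa [show (snoc C g).up k.castSucc j = ⟨j, (j.2.trans k.2).trans (Nat.lt_succ_self _)⟩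
          from rfl, hpoly j (j.2.trans k.2)]
  unfold nonscalarCount
  rw [Nat.card_eq_fintype_card, Nat.card_eq_fintype_card, Fintype.card_subtype,
    Fintype.card_subtype, Finset.card_filter, Finset.card_filter]
  have hsum : ∑ k : Fin (snoc C g).nodes, (if (snoc C g).IsNonscalar k then 1 else 0) =
      ∑ k : Fin C.nodes, (if (snoc C g).IsNonscalar k.castSucc then 1 else 0) +
      (if (snoc C g).IsNonscalar (Fin.last C.nodes) then 1 else 0) := by
    exact Fin.sum_univ_castSucc (n := C.nodes)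
      (fun k => if (snoc C g).IsNonscalar k then 1 else 0)
  rw [hsum]
  congr 1
  exact Finset.sum_congr rfl fun k _ => by simp only [hns k]

theorem Ext.snoc (P : V → Prop) (s : ℕ) (C : Circuit F V) (g : Gate F V C.nodes)
    (hlab : ∀ x, g = Gate.var x → P x)
    (hcnt : (snoc C g).IsNonscalar (Fin.last C.nodes) → 1 ≤ s) : Ext P s C (snoc C g) where
  le := Nat.le_succ _
  gate k hk := snoc_old C g ⟨k, hk⟩
  lab k x hk hx := by
    have hk' : k = Fin.last C.nodes := by
      apply Fin.ext
      have h1 : (k : ℕ) < C.nodes + 1 := k.2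
      show (k : ℕ) = C.nodes
      omega
    subst hk'
    rw [snoc_last] at hx
    exact hlab x hx
  cnt := by
    classical
    rw [nonscalar_snoc]
    split_ifs with h
    · exact Nat.add_le_add_left (hcnt h) _
    · omega

theorem poly_eq (C : Circuit F V) (k : Fin C.nodes) : C.poly k =
    match C.gate k with
    | .var x => MvPolynomial.X x
    | .const c => MvPolynomial.C c
    | .add i j => C.poly (C.up k i) + C.poly (C.up k j)
    | .mul i j => C.poly (C.up k i) * C.poly (C.up k j) := by
  rw [Circuit.poly]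
  cases C.gate k <;> rfl

theorem poly_last_const (C : Circuit F V) (c : F) :
    (snoc C (Gate.const c)).poly (Fin.last C.nodes) = MvPolynomial.C c := by
  refine (poly_eq (snoc C (Gate.const c)) (Fin.last C.nodes)).trans ?_
  rw [snoc_last]

theorem poly_last_var (C : Circuit F V) (x : V) :
    (snoc C (Gate.var x)).poly (Fin.last C.nodes) = MvPolynomial.X x := by
  refine (poly_eq (snoc C (Gate.var x)) (Fin.last C.nodes)).trans ?_
  rw [snoc_last]

theorem poly_last_add (C : Circuit F V) (i j : Fin C.nodes) :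
    (snoc C (Gate.add i j)).poly (Fin.last C.nodes) = C.poly i + C.poly j := by
  have hE : Ext (fun _ => True) 1 C (snoc C (Gate.add i j)) :=
    Ext.snoc _ 1 C _ (fun _ _ => trivial) (fun _ => le_refl _)
  refine (poly_eq (snoc C (Gate.add i j)) (Fin.last C.nodes)).trans ?_
  rw [snoc_last]
  exact congrArg₂ (· + ·) (hE.poly i i.2) (hE.poly j j.2)

theorem poly_last_mul (C : Circuit F V) (i j : Fin C.nodes) :
    (snoc C (Gate.mul i j)).poly (Fin.last C.nodes) = C.poly i * C.poly j := by
  have hE : Ext (fun _ => True) 1 C (snoc C (Gate.mul i j)) :=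
    Ext.snoc _ 1 C _ (fun _ _ => trivial) (fun _ => le_refl _)
  refine (poly_eq (snoc C (Gate.mul i j)) (Fin.last C.nodes)).trans ?_
  rw [snoc_last]
  exact congrArg₂ (· * ·) (hE.poly i i.2) (hE.poly j j.2)

/-- `C'` continues `C` -/
def Cont (C C' : Circuit F V) : Prop := ∃ r, Ext (fun _ => True) r C C'

theorem Cont.refl (C : Circuit F V) : Cont C C := ⟨0, Ext.refl _ C⟩

theorem Ext.cont {P : V → Prop} {s : ℕ} {C C' : Circuit F V} (h : Ext P s C C') : Cont C C' :=
  ⟨s, h.weaken (fun _ _ => trivial) (le_refl _)⟩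

theorem Cont.trans {C C' C'' : Circuit F V} (h : Cont C C') (h' : Cont C' C'') : Cont C C'' := by
  obtain ⟨r, h⟩ := h
  obtain ⟨r', h'⟩ := h'
  exact ⟨r + r', h.trans h'⟩

theorem Avail.cont {C C' : Circuit F V} (h : Cont C C') {p : MvPolynomial V F}
    (hp : Avail C p) : Avail C' p := by
  obtain ⟨r, h⟩ := h
  exact hp.ext h

/-- from every continuation of `C` the polynomial `p` can be computed with `s` products, reading
only variables which satisfy `P` -/
def Gen (P : V → Prop) (s : ℕ) (C : Circuit F V) (p : MvPolynomial V F) : Prop :=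
  ∀ C1, Cont C C1 → ∃ C2, Ext P s C1 C2 ∧ Avail C2 p

theorem Gen.of_avail {P : V → Prop} {C : Circuit F V} {p : MvPolynomial V F} (h : Avail C p) :
    Gen P 0 C p := fun C1 h1 => ⟨C1, Ext.refl P C1, h.cont h1⟩

theorem Gen.cont {P : V → Prop} {s : ℕ} {C C' : Circuit F V} {p : MvPolynomial V F}
    (h : Gen P s C p) (hc : Cont C C') : Gen P s C' p := fun C1 h1 => h C1 (hc.trans h1)

theorem Gen.weaken {P : V → Prop} {s s' : ℕ} {C : Circuit F V} {p : MvPolynomial V F}
    (h : Gen P s C p) (hs : s ≤ s') : Gen P s' C p := by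
  intro C1 h1
  obtain ⟨C2, h2, h3⟩ := h C1 h1
  exact ⟨C2, h2.weaken (fun _ h => h) hs, h3⟩

theorem Gen.const (P : V → Prop) (C : Circuit F V) (c : F) : Gen P 0 C (MvPolynomial.C c) := by
  intro C1 _
  refine ⟨Online.snoc C1 (Gate.const c), Ext.snoc P 0 C1 _ (fun x h => by cases h) ?_,
    Fin.last C1.nodes, ?_⟩
  · rintro ⟨i, j, h, _, _⟩
    rw [snoc_last] at h
    cases h
  · exact poly_last_const C1 c

theorem Gen.var {P : V → Prop} (C : Circuit F V) {x : V} (hx : P x) :
    Gen P 0 C (MvPolynomial.X x) := by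
  intro C1 _
  refine ⟨Online.snoc C1 (Gate.var x), Ext.snoc P 0 C1 _ (fun y h => ?_) ?_,
    Fin.last C1.nodes, ?_⟩
  · cases h
    exact hx
  · rintro ⟨i, j, h, _, _⟩
    rw [snoc_last] at h
    cases h
  · exact poly_last_var C1 x

theorem Gen.add {P : V → Prop} {s s' : ℕ} {C : Circuit F V} {p q : MvPolynomial V F}
    (hp : Gen P s C p) (hq : Gen P s' C q) : Gen P (s + s') C (p + q) := by
  intro C1 h1
  obtain ⟨C2, h2, h3⟩ := hp C1 h1
  obtain ⟨C3, h4, h5⟩ := hq C2 (h1.trans h2.cont)
  obtain ⟨i, hi⟩ := h3.ext h4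
  obtain ⟨j, hj⟩ := h5
  refine ⟨Online.snoc C3 (Gate.add i j), ?_, Fin.last C3.nodes, ?_⟩
  · have h6 := h4.trans (Ext.snoc P 0 C3 (Gate.add i j) (fun x h => by cases h) (by
      rintro ⟨i, j, h, _, _⟩
      rw [snoc_last] at h
      cases h))
    exact h2.trans h6
  · rw [← hi, ← hj]
    exact poly_last_add C3 i j

theorem Gen.mul {P : V → Prop} {s s' : ℕ} {C : Circuit F V} {p q : MvPolynomial V F}
    (hp : Gen P s C p) (hq : Gen P s' C q) : Gen P (s + s' + 1) C (p * q) := by
  intro C1 h1
  obtain ⟨C2, h2, h3⟩ := hp C1 h1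
  obtain ⟨C3, h4, h5⟩ := hq C2 (h1.trans h2.cont)
  obtain ⟨i, hi⟩ := h3.ext h4
  obtain ⟨j, hj⟩ := h5
  refine ⟨Online.snoc C3 (Gate.mul i j), ?_, Fin.last C3.nodes, ?_⟩
  · have h6 := h4.trans (Ext.snoc P 1 C3 (Gate.mul i j) (fun x h => by cases h)
      (fun _ => le_refl _))
    exact (h2.trans h6).weaken (fun _ h => h) (by omega)
  · rw [← hi, ← hj]
    exact poly_last_mul C3 i j

/-- multiplication by a constant costs nothing -/
theorem Gen.smul {P : V → Prop} {s : ℕ} {C : Circuit F V} {p : MvPolynomial V F} (c : F)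
    (hp : Gen P s C p) : Gen P s C (MvPolynomial.C c * p) := by
  intro C1 h1
  obtain ⟨C2, h2, h3⟩ := hp C1 h1
  obtain ⟨C3, h4, h5⟩ := Gen.const P C2 c C2 (Cont.refl _)
  obtain ⟨i, hi⟩ := h3.ext h4
  obtain ⟨j, hj⟩ := h5
  have hE : Ext (fun _ => True) 1 C3 (Online.snoc C3 (Gate.mul j i)) :=
    Ext.snoc _ 1 C3 _ (fun _ _ => trivial) (fun _ => le_refl _)
  refine ⟨Online.snoc C3 (Gate.mul j i), ?_, Fin.last C3.nodes, ?_⟩
  · have h6 := h4.trans (Ext.snoc P 0 C3 (Gate.mul j i) (fun x h => by cases h) (by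
      rintro ⟨j', i', h, h7, _⟩
      rw [snoc_last] at h
      cases h
      exact absurd ((hE.poly j j.2).trans hj) (h7 c)))
    exact h2.trans h6
  · rw [← hi, ← hj]
    exact poly_last_mul C3 j i

theorem Gen.sum {P : V → Prop} {C : Circuit F V} {ι : Type*} (t : Finset ι) (s : ι → ℕ)
    (f : ι → MvPolynomial V F) (h : ∀ i ∈ t, Gen P (s i) C (f i)) :
    Gen P (∑ i ∈ t, s i) C (∑ i ∈ t, f i) := by
  classical
  induction t using Finset.induction_on with
  | empty =>
    rw [Finset.sum_empty, Finset.sum_empty, ← MvPolynomial.C_0]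
    exact Gen.const P C 0
  | insert a t ha ih =>
    rw [Finset.sum_insert ha, Finset.sum_insert ha]
    exact (h a (Finset.mem_insert_self a t)).add
      (ih fun i hi => h i (Finset.mem_insert_of_mem hi))

theorem Gen.family {P : V → Prop} {C : Circuit F V} {ι : Type*} (t : Finset ι) (s : ι → ℕ)
    (f : ι → MvPolynomial V F) (h : ∀ i ∈ t, Gen P (s i) C (f i)) :
    ∃ C', Ext P (∑ i ∈ t, s i) C C' ∧ ∀ i ∈ t, Avail C' (f i) := by
  classical
  induction t using Finset.induction_on with
  | empty => exact ⟨C, Ext.refl P C, by simp⟩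
  | insert a t ha ih =>
    obtain ⟨C1, h1, h2⟩ := ih fun i hi => h i (Finset.mem_insert_of_mem hi)
    obtain ⟨C2, h3, h4⟩ := h a (Finset.mem_insert_self a t) C1 h1.cont
    refine ⟨C2, (h1.trans h3).weaken (fun _ h => h) ?_, fun i hi => ?_⟩
    · rw [Finset.sum_insert ha, add_comm]
    · rcases Finset.mem_insert.mp hi with rfl | hi
      · exact h4
      · exact (h2 i hi).ext h3

end Pool.Agent.Helper85.Online
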