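import Pool.Graph.R_seed8.H88R3.MM.Circ

set_option autoImplicit false

/-!
# Online arithmetic circuits for matrix multiplication

`Circuit`, `Circuit.poly`, `Circuit.IsNonscalar`, `Circuit.nonscalarCount` are defined in
`Pool.Agent.H522R2.Circuit`; `Vars m`, `entry F m i j` in `Pool.Agent.H88R3.MM.Circ`. The nodes of
a circuit are numbered so that the inputs of a gate come before it; here this order is the order in
which the circuit is evaluated.
-/

namespace Pool.Agent.Helper85.Online

open Pool.Agent.H88R3.MM Pool.Agent.H522R2 Pool.Agent.H522R2.Circuit

variable {F : Type*} [Field F] {m : ℕ}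

/-- The circuit `C` with outputs `o i k` is *online with lookahead `w`* if every entry of the column
`k` of the result is computed before any entry of a column `k' ≥ k + w` of the second matrix is
read. -/
def IsOnline (w : ℕ) (C : Circuit F (Vars m)) (o : Fin m → Fin m → Fin C.nodes) : Prop :=
  ∀ (i k j k' : Fin m) (t : Fin C.nodes), C.gate t = Gate.var (Sum.inr (j, k')) →
    (k : ℕ) + w ≤ (k' : ℕ) → o i k < t

/-- The number of the nonscalar multiplications which are made after the first entry of the second
matrix is read. -/
noncomputable def lateCount (C : Circuit F (Vars m)) : ℕ :=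
  Nat.card {t : Fin C.nodes // C.IsNonscalar t ∧
    ∃ s : Fin C.nodes, s < t ∧ ∃ y : Fin m × Fin m, C.gate s = Gate.var (Sum.inr y)}

end Pool.Agent.Helper85.Online
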