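import Pool.Agent.Helper85.Online.Defs
import Pool.Agent.Helper85.Mass.Main

set_option autoImplicit false

/-!
# The lower bound for online circuits
-/

namespace Pool.Agent.Helper85.Online

open Finset Pool.Agent.H88R3.MM Pool.Agent.H522R2 Pool.Agent.H522R2.Circuit
open Pool.Agent.Helper85.Mass

variable {F : Type*} [Field F] {m : ℕ}

/-- a node influences only later nodes -/
theorem le_of_transfer_ne (C : Circuit F (Vars m)) (t k : Fin C.nodes)
    (h : transfer C t k ≠ 0) : t ≤ k := by
  obtain ⟨k, hk⟩ := k
  induction k using Nat.strong_induction_on with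
  | _ k ih =>
    by_contra hlt
    apply h
    have hne : ¬ ((⟨k, hk⟩ : Fin C.nodes) = t) := fun e => hlt (le_of_eq e.symm)
    have hz : ∀ i (hi : i < k), transfer C t ⟨i, hi.trans hk⟩ = 0 := by
      intro i hi
      by_contra hne0
      have := ih i hi (hi.trans hk) hne0
      exact hlt (this.trans (by exact Fin.mk_le_mk.mpr hi.le))
    rw [transfer, if_neg hne, zero_add]
    cases hg : C.gate ⟨k, hk⟩ with
    | var y => simp
    | const c => simp
    | add i j =>
      simp only
      rw [show C.up ⟨k, hk⟩ i = ⟨i, i.2.trans hk⟩ from rfl,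
        show C.up ⟨k, hk⟩ j = ⟨j, j.2.trans hk⟩ from rfl, hz i i.2, hz j j.2, add_zero]
    | mul i j =>
      simp only
      rw [show C.up ⟨k, hk⟩ i = ⟨i, i.2.trans hk⟩ from rfl,
        show C.up ⟨k, hk⟩ j = ⟨j, j.2.trans hk⟩ from rfl, hz i i.2, hz j j.2, mul_zero, mul_zero,
        add_zero]

/-- a node whose linear part in the second matrix depends on the column `k` comes after (or is) a
node reading an entry of this column -/
theorem exists_read (C : Circuit F (Vars m)) (t : Fin C.nodes) (k : Fin m)
    (b : Fin m × Fin m → F) (hb : ∀ y, y.2 ≠ k → b y = 0) (h : jB C t b ≠ 0) :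
    ∃ s : Fin C.nodes, s ≤ t ∧ ∃ j : Fin m, C.gate s = Gate.var (Sum.inr (j, k)) := by
  obtain ⟨t, ht⟩ := t
  induction t using Nat.strong_induction_on with
  | _ t ih =>
    rw [jB] at h
    cases hg : C.gate ⟨t, ht⟩ with
    | var y =>
      rcases y with y | y
      · rw [hg] at h
        simp at h
      · rw [hg] at h
        simp only [LinearMap.proj_apply] at h
        have hy : y.2 = k := by
          by_contra hne
          exact h (hb y hne)
        refine ⟨⟨t, ht⟩, le_refl _, y.1, ?_⟩
        rw [hg, ← hy]
    | const c =>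
      rw [hg] at h
      simp at h
    | add i j =>
      rw [hg] at h
      simp only [LinearMap.add_apply] at h
      by_cases h1 : jB C (C.up ⟨t, ht⟩ i) b = 0
      · by_cases h2 : jB C (C.up ⟨t, ht⟩ j) b = 0
        · exact absurd (by rw [h1, h2, add_zero]) h
        · obtain ⟨s, hs, r⟩ := ih j j.2 (j.2.trans ht) h2
          exact ⟨s, hs.trans (Fin.mk_le_mk.mpr j.2.le), r⟩
      · obtain ⟨s, hs, r⟩ := ih i i.2 (i.2.trans ht) h1
        exact ⟨s, hs.trans (Fin.mk_le_mk.mpr i.2.le), r⟩
    | mul i j =>
      rw [hg] at h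
      simp only [LinearMap.add_apply, LinearMap.smul_apply, smul_eq_mul] at h
      by_cases h1 : jB C (C.up ⟨t, ht⟩ i) b = 0
      · by_cases h2 : jB C (C.up ⟨t, ht⟩ j) b = 0
        · exact absurd (by rw [h1, h2, mul_zero, mul_zero, add_zero]) h
        · obtain ⟨s, hs, r⟩ := ih j j.2 (j.2.trans ht) h2
          exact ⟨s, hs.trans (Fin.mk_le_mk.mpr j.2.le), r⟩
      · obtain ⟨s, hs, r⟩ := ih i i.2 (i.2.trans ht) h1
        exact ⟨s, hs.trans (Fin.mk_le_mk.mpr i.2.le), r⟩

/-- the products which serve the column `k` -/
def Serves (C : Circuit F (Vars m)) (o : Fin m → Fin m → Fin C.nodes) (k : Fin m)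
    (t : Fin C.nodes) : Prop :=
  C.IsNonscalar t ∧ (∃ i, t ≤ o i k) ∧
    ∃ s : Fin C.nodes, s < t ∧ ∃ j : Fin m, C.gate s = Gate.var (Sum.inr (j, k))

theorem inp_lt (C : Circuit F (Vars m)) (t : Fin C.nodes) (ht : C.IsNonscalar t) :
    (inp C t).1 < t ∧ (inp C t).2 < t := by
  obtain ⟨i, j, h, _, _⟩ := ht
  have hin : inp C t = (C.up t i, C.up t j) := by
    unfold inp
    rw [h]
  rw [hin]
  exact ⟨i.2, j.2⟩

open Classical in
/-- at least `m² / 2` products serve a given column -/
theorem card_serves (C : Circuit F (Vars m)) (o : Fin m → Fin m → Fin C.nodes)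
    (ho : ∀ i k, C.poly (o i k) = entry F m i k) (k : Fin m) :
    m ^ 2 ≤ 2 * (univ.filter (Serves C o k)).card := by
  set G := univ.filter (Serves C o k) with hG
  -- the linear functionals on the first matrix
  let φ : G × Bool → Module.Dual F (Fin m × Fin m → F) := fun t =>
    jA C (if t.2 then (inp C t.1.1).1 else (inp C t.1.1).2)
  have hspan : ⊤ ≤ Submodule.span F (Set.range φ) := by
    -- it is enough to obtain the coordinate functionals
    have key : ∀ x : Fin m × Fin m, (LinearMap.proj x : (Fin m × Fin m → F) →ₗ[F] F) ∈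
        Submodule.span F (Set.range φ) := by
      rintro ⟨i, j⟩
      set b : Fin m × Fin m → F := Pi.single (j, k) 1 with hb
      have hform : (LinearMap.proj (i, j) : (Fin m × Fin m → F) →ₗ[F] F) =
          ∑ t : {t : Fin C.nodes // C.IsNonscalar t}, ((transfer C t.1 (o i k) *
            jB C (inp C t.1).2 b) • jA C (inp C t.1).1 +
            (transfer C t.1 (o i k) * jB C (inp C t.1).1 b) • jA C (inp C t.1).2) := by
        refine LinearMap.ext fun a => ?_
        rw [LinearMap.sum_apply]
        have h1 : jQ C a b (o i k) = a (i, j) := by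
          rw [← (ev_poly C a b (o i k)).2.2.2, ho, ev_entry]
          rw [Finset.sum_eq_single j]
          · simp [hb]
          · intro l _ hl
            have : b (l, k) = 0 := by
              rw [hb, Pi.single_apply, if_neg]
              intro h
              exact hl (congrArg Prod.fst h)
            rw [this, mul_zero]
          · simp
        rw [LinearMap.proj_apply, ← h1, jQ_eq_sum]
        rw [← Finset.sum_subset (Finset.filter_subset (fun t => C.IsNonscalar t) Finset.univ)]
        · rw [Finset.sum_subtype (Finset.univ.filter (fun t => C.IsNonscalar t))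
            (p := fun t => C.IsNonscalar t) (by simp)]
          refine Finset.sum_congr rfl fun t _ => ?_
          obtain ⟨p, q, h, _, _⟩ := t.2
          have hin : inp C t.1 = (C.up t.1 p, C.up t.1 q) := by
            unfold inp
            rw [h]
          simp only [joinAt, h, hin, LinearMap.add_apply, LinearMap.smul_apply, smul_eq_mul]
          ring
        · intro t _ ht
          have hns : ¬ C.IsNonscalar t := by simpa using ht
          have : joinAt C a b t = 0 := by
            cases h : C.gate t with
            | var y => simp [joinAt, h]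
            | const c => simp [joinAt, h]
            | add p q => simp [joinAt, h]
            | mul p q =>
              simp only [joinAt, h]
              by_cases h1 : ∀ c : F, C.poly (C.up t p) ≠ MvPolynomial.C c
              · have h2 : ¬ ∀ c : F, C.poly (C.up t q) ≠ MvPolynomial.C c :=
                  fun h2 => hns ⟨p, q, h, h1, h2⟩
                simp only [not_forall, not_not] at h2
                obtain ⟨c, hc⟩ := h2
                rw [jA_eq_zero_of_const C _ c hc, jB_eq_zero_of_const C _ c hc]
                ring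
              · simp only [not_forall, not_not] at h1
                obtain ⟨c, hc⟩ := h1
                rw [jA_eq_zero_of_const C _ c hc, jB_eq_zero_of_const C _ c hc]
                ring
          rw [this, mul_zero]
      rw [hform]
      refine Submodule.sum_mem _ fun t _ => ?_
      have hb' : ∀ y : Fin m × Fin m, y.2 ≠ k → b y = 0 := by
        intro y hy
        rw [hb, Pi.single_apply, if_neg]
        intro h
        exact hy (congrArg Prod.snd h)
      have hmem : transfer C t.1 (o i k) ≠ 0 →
          (jB C (inp C t.1).1 b ≠ 0 ∨ jB C (inp C t.1).2 b ≠ 0) → t.1 ∈ G := by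
        intro ht hjb
        rw [hG, Finset.mem_filter]
        refine ⟨Finset.mem_univ _, t.2, ⟨i, le_of_transfer_ne C _ _ ht⟩, ?_⟩
        rcases hjb with hjb | hjb
        · obtain ⟨s, hs, r⟩ := exists_read C _ k b hb' hjb
          exact ⟨s, lt_of_le_of_lt hs (inp_lt C t.1 t.2).1, r⟩
        · obtain ⟨s, hs, r⟩ := exists_read C _ k b hb' hjb
          exact ⟨s, lt_of_le_of_lt hs (inp_lt C t.1 t.2).2, r⟩
      refine Submodule.add_mem _ ?_ ?_
      · by_cases h1 : transfer C t.1 (o i k) = 0
        · rw [h1, zero_mul, zero_smul]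
          exact Submodule.zero_mem _
        · by_cases h2 : jB C (inp C t.1).2 b = 0
          · rw [h2, mul_zero, zero_smul]
            exact Submodule.zero_mem _
          · refine Submodule.smul_mem _ _ (Submodule.subset_span ?_)
            exact ⟨(⟨t.1, hmem h1 (Or.inr h2)⟩, true), by simp [φ]⟩
      · by_cases h1 : transfer C t.1 (o i k) = 0
        · rw [h1, zero_mul, zero_smul]
          exact Submodule.zero_mem _
        · by_cases h2 : jB C (inp C t.1).1 b = 0
          · rw [h2, mul_zero, zero_smul]
            exact Submodule.zero_mem _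
          · refine Submodule.smul_mem _ _ (Submodule.subset_span ?_)
            exact ⟨(⟨t.1, hmem h1 (Or.inl h2)⟩, false), by simp [φ]⟩
    intro f _
    have hf : f = ∑ x, f (Pi.single x 1) • (LinearMap.proj x : (Fin m × Fin m → F) →ₗ[F] F) := by
      refine LinearMap.ext fun a => ?_
      rw [LinearMap.sum_apply, LinearMap.pi_apply_eq_sum_univ f a]
      refine Finset.sum_congr rfl fun x _ => ?_
      simp only [LinearMap.smul_apply, LinearMap.proj_apply, smul_eq_mul]
      rw [mul_comm]
      congr 2
      funext y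
      rw [Pi.single_apply]
      exact if_congr eq_comm rfl rfl
    rw [hf]
    exact Submodule.sum_mem _ fun x _ => Submodule.smul_mem _ _ (key x)
  have h1 : Module.finrank F (Module.Dual F (Fin m × Fin m → F)) = m ^ 2 := by
    rw [Subspace.dual_finrank_eq, Module.finrank_fintype_fun_eq_card, Fintype.card_prod,
      Fintype.card_fin]
    ring
  have h2 : Module.finrank F (Submodule.span F (Set.range φ)) ≤ Fintype.card (G × Bool) :=
    finrank_range_le_card φ
  have h3 : Submodule.span F (Set.range φ) = ⊤ := top_le_iff.mp hspan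
  rw [h3, finrank_top, h1, Fintype.card_prod, Fintype.card_bool, Fintype.card_coe] at h2
  omega

open Classical in
/-- **The lower bound.** -/
theorem lower (C : Circuit F (Vars m)) (o : Fin m → Fin m → Fin C.nodes)
    (ho : ∀ i k, C.poly (o i k) = entry F m i k) (w : ℕ) (hw : 1 ≤ w) (hon : IsOnline w C o) :
    m ^ 2 * ((m + w - 1) / w) ≤ 2 * lateCount C := by
  set S := (m + w - 1) / w with hS
  have hlt : ∀ s : Fin S, (s : ℕ) * w < m := by
    intro s
    have h1 : (s : ℕ) + 1 ≤ (m + w - 1) / w := s.2
    rw [Nat.le_div_iff_mul_le (by omega)] at h1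
    rw [add_mul, one_mul] at h1
    omega
  let col : Fin S → Fin m := fun s => ⟨s * w, hlt s⟩
  let G : Fin S → Finset (Fin C.nodes) := fun s => univ.filter (Serves C o (col s))
  have hdisj : ∀ s s' : Fin S, (s : ℕ) < s' → Disjoint (G s) (G s') := by
    intro s s' hss
    rw [Finset.disjoint_left]
    intro t ht ht'
    obtain ⟨_, ⟨i, hi⟩, _⟩ := (Finset.mem_filter.mp ht).2
    obtain ⟨_, _, s0, hs0, j, hj⟩ := (Finset.mem_filter.mp ht').2
    have hcol : ((col s : Fin m) : ℕ) + w ≤ ((col s' : Fin m) : ℕ) := by
      show (s : ℕ) * w + w ≤ (s' : ℕ) * w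
      have : ((s : ℕ) + 1) * w ≤ (s' : ℕ) * w := Nat.mul_le_mul_right w hss
      rw [add_mul, one_mul] at this
      exact this
    have h1 := hon i (col s) j (col s') s0 hj hcol
    exact absurd (lt_of_lt_of_le (h1.trans hs0) hi) (lt_irrefl _)
  have hpair : ∀ s ∈ (univ : Finset (Fin S)), ∀ s' ∈ (univ : Finset (Fin S)), s ≠ s' →
      Disjoint (G s) (G s') := by
    intro s _ s' _ hne
    rcases lt_or_gt_of_ne (fun h => hne (Fin.ext h) : (s : ℕ) ≠ s') with h | h
    · exact hdisj s s' h
    · exact (hdisj s' s h).symm
  have hcard : (univ.biUnion G).card = ∑ s, (G s).card := Finset.card_biUnion hpair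
  have hsub : univ.biUnion G ⊆ univ.filter (fun t : Fin C.nodes => C.IsNonscalar t ∧
      ∃ s : Fin C.nodes, s < t ∧ ∃ y : Fin m × Fin m, C.gate s = Gate.var (Sum.inr y)) := by
    intro t ht
    obtain ⟨s, _, hs⟩ := Finset.mem_biUnion.mp ht
    obtain ⟨h1, _, s0, hs0, j, hj⟩ := (Finset.mem_filter.mp hs).2
    exact Finset.mem_filter.mpr ⟨Finset.mem_univ _, h1, s0, hs0, _, hj⟩
  have hlate : lateCount C = (univ.filter (fun t : Fin C.nodes => C.IsNonscalar t ∧
      ∃ s : Fin C.nodes, s < t ∧ ∃ y : Fin m × Fin m, C.gate s = Gate.var (Sum.inr y))).card := by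
    unfold lateCount
    rw [Nat.card_eq_fintype_card, Fintype.card_subtype]
  rw [hlate]
  have h1 : ∑ _s : Fin S, m ^ 2 ≤ ∑ s, 2 * (G s).card :=
    Finset.sum_le_sum fun s _ => card_serves C o ho (col s)
  rw [Finset.sum_const, Finset.card_univ, Fintype.card_fin, smul_eq_mul, ← Finset.mul_sum,
    ← hcard] at h1
  calc m ^ 2 * S = S * m ^ 2 := mul_comm _ _
    _ ≤ 2 * (univ.biUnion G).card := h1
    _ ≤ _ := Nat.mul_le_mul_left 2 (Finset.card_le_card hsub)

theorem lateCount_le (C : Circuit F (Vars m)) : lateCount C ≤ C.nonscalarCount := by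
  unfold lateCount nonscalarCount
  apply Nat.card_le_card_of_injective
    (fun t : {t : Fin C.nodes // C.IsNonscalar t ∧
      ∃ s : Fin C.nodes, s < t ∧ ∃ y : Fin m × Fin m, C.gate s = Gate.var (Sum.inr y)} =>
      (⟨t.1, t.2.1⟩ : {k : Fin C.nodes // C.IsNonscalar k}))
  intro x y hxy
  have h := congrArg Subtype.val hxy
  exact Subtype.ext h

end Pool.Agent.Helper85.Online
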