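import Pool.Agent.Helper85.Online.Build

set_option autoImplicit false

/-!
# Winograd's inner product algorithm is an online algorithm
-/

namespace Pool.Agent.Helper85.Online

open Finset Pool.Agent.H88R3.MM Pool.Agent.H522R2 Pool.Agent.H522R2.Circuit

variable {F : Type*} [Field F] {m : ℕ}

/-- the row `i` of the first matrix, continued by zeros -/
noncomputable def av (F : Type*) [Field F] {m : ℕ} (i : Fin m) (j : ℕ) :
    MvPolynomial (Vars m) F :=
  if h : j < m then MvPolynomial.X (Sum.inl (i, ⟨j, h⟩)) else 0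

/-- the column `k` of the second matrix, continued by zeros -/
noncomputable def bv (F : Type*) [Field F] {m : ℕ} (k : Fin m) (j : ℕ) :
    MvPolynomial (Vars m) F :=
  if h : j < m then MvPolynomial.X (Sum.inr (⟨j, h⟩, k)) else 0

theorem sum_range_two_mul {M : Type*} [AddCommMonoid M] (f : ℕ → M) (r : ℕ) :
    ∑ j ∈ range (2 * r), f j = ∑ l ∈ range r, (f (2 * l) + f (2 * l + 1)) := by
  induction r with
  | zero => simp
  | succ r ih =>
    rw [show 2 * (r + 1) = 2 * r + 1 + 1 by ring, Finset.sum_range_succ, Finset.sum_range_succ, ih,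
      Finset.sum_range_succ, add_assoc]

/-- the row form -/
noncomputable def xi (F : Type*) [Field F] {m : ℕ} (r : ℕ) (i : Fin m) :
    MvPolynomial (Vars m) F :=
  ∑ l ∈ range r, av F i (2 * l) * av F i (2 * l + 1)

/-- the column form -/
noncomputable def eta (F : Type*) [Field F] {m : ℕ} (r : ℕ) (k : Fin m) :
    MvPolynomial (Vars m) F :=
  ∑ l ∈ range r, bv F k (2 * l) * bv F k (2 * l + 1)

theorem entry_eq (i k : Fin m) (r : ℕ) (hr : m ≤ 2 * r) : entry F m i k =
    ∑ l ∈ range r, (av F i (2 * l) + bv F k (2 * l + 1)) * (av F i (2 * l + 1) + bv F k (2 * l)) +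
      (MvPolynomial.C (-1) * xi F r i + MvPolynomial.C (-1) * eta F r k) := by
  have h1 : entry F m i k = ∑ j ∈ range (2 * r), av F i j * bv F k j := by
    have h2 : entry F m i k = ∑ j ∈ range m, av F i j * bv F k j := by
      rw [Finset.sum_range]
      unfold entry
      refine Finset.sum_congr rfl fun j _ => ?_
      simp [av, bv]
    rw [h2]
    refine Finset.sum_subset (Finset.range_subset_range.mpr hr) fun j _ hj => ?_
    have hj' : ¬ j < m := by simpa using hj
    simp [av, hj']
  rw [h1, sum_range_two_mul, xi, eta, map_neg, map_one]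
  simp only [Finset.mul_sum, ← Finset.sum_add_distrib]
  exact Finset.sum_congr rfl fun l _ => by ring

/-- the labels allowed in the stage for the column `k` -/
def LabB (k : Fin m) : Vars m → Prop
  | .inl _ => True
  | .inr y => y.2 = k

/-- the labels allowed in the first stage -/
def LabA : Vars m → Prop
  | .inl _ => True
  | .inr _ => False

theorem gen_av {P : Vars m → Prop} (hP : ∀ x, P (Sum.inl x)) (C : Circuit F (Vars m)) (i : Fin m)
    (j : ℕ) : Gen P 0 C (av F i j) := by
  unfold av
  split_ifs with h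
  · exact Gen.var C (hP _)
  · rw [← MvPolynomial.C_0]
    exact Gen.const P C 0

theorem gen_bv (C : Circuit F (Vars m)) (k : Fin m) (j : ℕ) :
    Gen (LabB k) 0 C (bv F k j) := by
  unfold bv
  split_ifs with h
  · exact Gen.var C rfl
  · rw [← MvPolynomial.C_0]
    exact Gen.const _ C 0

theorem gen_xi (C : Circuit F (Vars m)) (i : Fin m) (r : ℕ) : Gen LabA r C (xi F r i) := by
  have h := Gen.sum (P := LabA) (C := C) (range r) (fun _ => 0 + 0 + 1)
    (fun l => av F i (2 * l) * av F i (2 * l + 1))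
    (fun l _ => (gen_av (fun _ => trivial) C i _).mul (gen_av (fun _ => trivial) C i _))
  unfold xi
  simpa using h

theorem gen_eta (C : Circuit F (Vars m)) (k : Fin m) (r : ℕ) :
    Gen (LabB k) r C (eta F r k) := by
  have h := Gen.sum (P := LabB k) (C := C) (range r) (fun _ => 0 + 0 + 1)
    (fun l => bv F k (2 * l) * bv F k (2 * l + 1))
    (fun l _ => (gen_bv C k _).mul (gen_bv C k _))
  unfold eta
  simpa using h

theorem gen_entry (C : Circuit F (Vars m)) (i k : Fin m) (r : ℕ) (hr : m ≤ 2 * r)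
    (h1 : Avail C (xi F r i)) (h2 : Avail C (eta F r k)) :
    Gen (LabB k) r C (entry F m i k) := by
  rw [entry_eq i k r hr]
  have h := Gen.sum (P := LabB k) (C := C) (range r) (fun _ => 0 + 0 + (0 + 0) + 1)
    (fun l => (av F i (2 * l) + bv F k (2 * l + 1)) * (av F i (2 * l + 1) + bv F k (2 * l)))
    (fun l _ => ((gen_av (fun _ => trivial) C i _).add (gen_bv C k _)).mul
      ((gen_av (fun _ => trivial) C i _).add (gen_bv C k _)))
  have h3 := h.add (((Gen.of_avail h1).smul (-1)).add ((Gen.of_avail h2).smul (-1)))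
  simpa using h3

/-- the circuit without nodes -/
def emptyC (F V : Type*) : Circuit F V where
  nodes := 0
  gate k := Fin.elim0 k

theorem exists_stage (r : ℕ) (hr : m ≤ 2 * r) (K : ℕ) (hK : K ≤ m) :
    ∃ C : Circuit F (Vars m), C.nonscalarCount ≤ m * r + K * (r + m * r) ∧
      (∀ i, Avail C (xi F r i)) ∧
      (∀ k : Fin m, (k : ℕ) < K → ∀ i, ∃ p : Fin C.nodes, C.poly p = entry F m i k ∧
        ∀ (t : Fin C.nodes) (j k' : Fin m), C.gate t = Gate.var (Sum.inr (j, k')) →
          k < k' → p < t) ∧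
      ∀ (t : Fin C.nodes) (j k' : Fin m), C.gate t = Gate.var (Sum.inr (j, k')) →
        (k' : ℕ) < K := by
  induction K with
  | zero =>
    obtain ⟨C, h1, h2⟩ := Gen.family (P := LabA) (C := emptyC F (Vars m)) (univ : Finset (Fin m))
      (fun _ => r) (fun i => xi F r i) (fun i _ => gen_xi _ i r)
    refine ⟨C, ?_, fun i => h2 i (mem_univ i), fun k hk => absurd hk (Nat.not_lt_zero _), ?_⟩
    · have h3 := h1.cnt
      have h4 : (emptyC F (Vars m)).nonscalarCount = 0 := by
        unfold nonscalarCount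
        rw [Nat.card_eq_zero]
        exact Or.inl ⟨fun x => Fin.elim0 x.1⟩
      rw [h4] at h3
      simpa using h3
    · intro t j k' ht
      exact absurd (h1.lab t _ (Nat.zero_le _) ht) id
  | succ K ih =>
    obtain ⟨C, hc, hxi, hout, hlab⟩ := ih (by omega)
    set k0 : Fin m := ⟨K, by omega⟩ with hk0
    obtain ⟨C1, h1, h2⟩ := gen_eta (F := F) C k0 r C (Cont.refl C)
    obtain ⟨C2, h3, h4⟩ := Gen.family (P := LabB k0) (C := C1) (univ : Finset (Fin m))
      (fun _ => r) (fun i => entry F m i k0)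
      (fun i _ => gen_entry C1 i k0 r hr ((hxi i).ext h1) h2)
    have h5 := h1.trans h3
    have hnew : ∀ (t : Fin C2.nodes) (j k' : Fin m), C2.gate t = Gate.var (Sum.inr (j, k')) →
        C.nodes ≤ t → k' = k0 := fun t j k' ht hle => h5.lab t _ hle ht
    have hold : ∀ (t : Fin C2.nodes) (j k' : Fin m), C2.gate t = Gate.var (Sum.inr (j, k')) →
        ∀ hlt : (t : ℕ) < C.nodes, C.gate ⟨t, hlt⟩ = Gate.var (Sum.inr (j, k')) := by
      intro t j k' ht hlt
      rw [← h5.gate t hlt]
      exact ht
    refine ⟨C2, ?_, fun i => (hxi i).ext h5, ?_, ?_⟩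
    · have h6 := h5.cnt
      simp only [Finset.sum_const, Finset.card_univ, Fintype.card_fin, smul_eq_mul] at h6
      calc C2.nonscalarCount ≤ C.nonscalarCount + (r + m * r) := h6
        _ ≤ m * r + K * (r + m * r) + (r + m * r) := by omega
        _ = m * r + (K + 1) * (r + m * r) := by ring
    · intro k hk i
      by_cases hkK : (k : ℕ) < K
      · obtain ⟨p, hp, hp'⟩ := hout k hkK i
        refine ⟨⟨p, p.2.trans_le h5.le⟩, (h5.poly p p.2).trans hp, ?_⟩
        intro t j k' ht hkk'
        by_cases hlt : (t : ℕ) < C.nodes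
        · exact hp' ⟨t, hlt⟩ j k' (hold t j k' ht hlt) hkk'
        · exact Fin.lt_def.mpr (lt_of_lt_of_le p.2 (Nat.le_of_not_lt hlt))
      · have hkk : k = k0 := Fin.ext (by show (k : ℕ) = K; omega)
        subst hkk
        obtain ⟨p, hp⟩ := h4 i (mem_univ i)
        refine ⟨p, hp, ?_⟩
        intro t j k' ht hkk'
        exfalso
        by_cases hlt : (t : ℕ) < C.nodes
        · have h7 := hlab ⟨t, hlt⟩ j k' (hold t j k' ht hlt)
          have h8 : K < (k' : ℕ) := hkk'
          omega
        · have h7 := hnew t j k' ht (Nat.le_of_not_lt hlt)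
          rw [h7] at hkk'
          exact lt_irrefl _ hkk'
    · intro t j k' ht
      by_cases hlt : (t : ℕ) < C.nodes
      · have h7 := hlab ⟨t, hlt⟩ j k' (hold t j k' ht hlt)
        omega
      · have h7 := hnew t j k' ht (Nat.le_of_not_lt hlt)
        rw [h7]
        exact Nat.lt_succ_self K

/-- **Winograd's algorithm** as an online circuit. -/
theorem upper (F : Type*) [Field F] (m : ℕ) :
    ∃ (C : Circuit F (Vars m)) (o : Fin m → Fin m → Fin C.nodes),
      (∀ i k, C.poly (o i k) = entry F m i k) ∧ IsOnline 1 C o ∧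
      2 * C.nonscalarCount ≤ m ^ 3 + 3 * m ^ 2 + 2 * m := by
  obtain ⟨C, hc, _, hout, _⟩ := exists_stage (F := F) (m := m) ((m + 1) / 2) (by omega) m
    (le_refl m)
  choose o ho1 ho2 using fun (k : Fin m) (i : Fin m) => hout k k.2 i
  refine ⟨C, fun i k => o k i, fun i k => ho1 k i, ?_, ?_⟩
  · intro i k j k' t ht hkk'
    exact ho2 k i t j k' ht (by show (k : ℕ) < k'; omega)
  · have h1 : 2 * ((m + 1) / 2) ≤ m + 1 := Nat.mul_div_le (m + 1) 2
    set r := (m + 1) / 2
    calc 2 * C.nonscalarCount ≤ 2 * (m * r + m * (r + m * r)) := Nat.mul_le_mul_left 2 hc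
      _ = (2 * r) * (m ^ 2 + 2 * m) := by ring
      _ ≤ (m + 1) * (m ^ 2 + 2 * m) := Nat.mul_le_mul_right _ h1
      _ = m ^ 3 + 3 * m ^ 2 + 2 * m := by ring

end Pool.Agent.Helper85.Online
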